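import Pool.Agent.Y998.CN.Fin
import Pool.Agent.Y998.ST.Torus

/-!
# The torus
-/

set_option autoImplicit false

namespace Pool.Agent.Y998.CN

open Finset Equiv Pool.Agent.Y998.ST

section conj

variable {V : Type} [Fintype V] [DecidableEq V]

theorem pow_conj (σ : Perm V) {J : V → V → ℝ} (hJ : ∀ x y, J (σ x) (σ y) = J x y) (n : ℕ) :
    ∀ g : Perm V, (TT J ^ n) (σ * g * σ⁻¹) 1 = (TT J ^ n) g 1 := by
  induction n with
  | zero =>
    intro g
    have h : σ * g * σ⁻¹ = 1 ↔ g = 1 := by rw [mul_inv_eq_one, mul_eq_left]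
    rw [pow_zero, Matrix.one_apply, Matrix.one_apply]
    simp only [h]
  | succ n ih =>
    intro g
    rw [pow_succ', TT_mul, TT_mul, ← Equiv.sum_comp σ]
    refine Finset.sum_congr rfl fun x _ => ?_
    rw [← Equiv.sum_comp σ]
    refine Finset.sum_congr rfl fun y _ => ?_
    have h : swap (σ x) (σ y) * (σ * g * σ⁻¹) = σ * (swap x y * g) * σ⁻¹ := by
      rw [swap_apply_apply]
      group
    rw [h, ih, hJ]

theorem law_conj (σ : Perm V) {J : V → V → ℝ} (hJ : ∀ x y, J (σ x) (σ y) = J x y) (t : ℝ)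
    (g : Perm V) : stirLaw J t (σ * g * σ⁻¹) = stirLaw J t g := by
  unfold stirLaw
  simp only [← TT_words, pow_conj σ hJ]

theorem same_conj (σ g : Perm V) (u v : V) :
    (σ * g * σ⁻¹).SameCycle (σ u) (σ v) ↔ g.SameCycle u v := by
  rw [Perm.sameCycle_conj]
  simp

theorem len_conj (σ g : Perm V) (v : V) : cycleLen (σ * g * σ⁻¹) (σ v) = cycleLen g v := by
  unfold cycleLen
  symm
  exact Nat.card_congr (σ.subtypeEquiv fun w => (same_conj σ g v w).symm)

theorem num_conj (σ g : Perm V) : numCycles (σ * g * σ⁻¹) = numCycles g := by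
  unfold numCycles
  symm
  refine Nat.card_congr (Quotient.congr σ fun a b => ?_)
  exact (same_conj σ g a b).symm

/-- For rates invariant under a transitive family of permutations all points are alike. -/
theorem all_alike {J : V → V → ℝ} (htr : ∀ v w : V, ∃ σ : Perm V, σ v = w ∧
    ∀ x y, J (σ x) (σ y) = J x y) (t θ : ℝ) (K : ℕ) (v : V) :
    (Fintype.card V : ℝ) * ∑ g, stirLaw J t g * θ ^ numCycles g *
      (if cycleLen g v ≤ K then 1 else 0) =
    ∑ g, stirLaw J t g * θ ^ numCycles g * (Nat.card {w : V // cycleLen g w ≤ K} : ℝ) := by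
  have key : ∀ w : V, ∑ g, stirLaw J t g * θ ^ numCycles g * (if cycleLen g w ≤ K then 1 else 0) =
      ∑ g, stirLaw J t g * θ ^ numCycles g * (if cycleLen g v ≤ K then (1 : ℝ) else 0) := by
    intro w
    obtain ⟨σ, hσ, hJσ⟩ := htr v w
    rw [← Equiv.sum_comp (MulAut.conj σ).toEquiv]
    refine Finset.sum_congr rfl fun g _ => ?_
    have e1 : (MulAut.conj σ).toEquiv g = σ * g * σ⁻¹ := rfl
    rw [e1, law_conj σ hJσ, num_conj, ← hσ, len_conj]
  have h1 : ∑ g, stirLaw J t g * θ ^ numCycles g * (Nat.card {w : V // cycleLen g w ≤ K} : ℝ) =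
      ∑ w : V, ∑ g, stirLaw J t g * θ ^ numCycles g *
        (if cycleLen g w ≤ K then (1 : ℝ) else 0) := by
    rw [Finset.sum_comm]
    refine Finset.sum_congr rfl fun g _ => ?_
    rw [← Finset.mul_sum, Finset.sum_boole, Nat.card_eq_fintype_card, Fintype.card_subtype]
  rw [h1, Finset.sum_congr rfl fun w _ => key w, Finset.sum_const, nsmul_eq_mul, Finset.card_univ]

end conj

section torus

variable {d L : ℕ} [NeZero L]

/-- coordinates on the torus -/
def phi (d L : ℕ) [NeZero L] : (Fin d → ZMod L) ≃ (Fin d → Fin L) :=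
  Equiv.piCongrRight fun _ => (ZMod.finEquiv L).symm.toEquiv

theorem fin_val (x : ZMod L) : (((ZMod.finEquiv L).symm x : Fin L) : ℕ) = x.val := by
  cases L with
  | zero => exact absurd rfl (NeZero.ne 0)
  | succ n => rfl

theorem co_phi (v : Fin d → ZMod L) (k : Fin d) : co (phi d L) v k = (v k).val := fin_val (v k)

theorem co_adj (v w : Fin d → ZMod L) (k : Fin d)
    (h : co (phi d L) w = Function.update (co (phi d L) v) k (co (phi d L) v k + 1)) :
    w = Function.update v k (v k + 1) := by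
  funext i
  by_cases hi : i = k
  · subst hi
    have h1 := congrFun h i
    rw [Function.update_self, co_phi, co_phi] at h1
    rw [Function.update_self]
    have h2 : ((w i).val : ZMod L) = (((v i).val + 1 : ℕ) : ZMod L) := by rw [h1]
    rw [ZMod.natCast_zmod_val] at h2
    rw [h2]
    push_cast
    rw [ZMod.natCast_zmod_val]
  · have h1 := congrFun h i
    rw [Function.update_of_ne hi, co_phi, co_phi] at h1
    rw [Function.update_of_ne hi]
    exact ZMod.val_injective L h1

theorem nn_adj (v w : Fin d → ZMod L) (k : Fin d)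
    (h : co (phi d L) w = Function.update (co (phi d L) v) k (co (phi d L) v k + 1)) :
    1 ≤ nnRate d L v w := by
  unfold nnRate
  rw [if_pos ⟨k, Or.inl (co_adj v w k h)⟩]

/-- a translation of the torus -/
theorem trans_torus (J : (Fin d → ZMod L) → (Fin d → ZMod L) → ℝ)
    (hJ : ∀ x y z, J (x + z) (y + z) = J x y) (v w : Fin d → ZMod L) :
    ∃ σ : Perm (Fin d → ZMod L), σ v = w ∧ ∀ x y, J (σ x) (σ y) = J x y := by
  refine ⟨Equiv.addRight (w - v), ?_, fun x y => ?_⟩
  · simp
  · simpa using hJ x y (w - v)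

theorem nn_trans (x y z : Fin d → ZMod L) : nnRate d L (x + z) (y + z) = nnRate d L x y := by
  unfold nnRate
  have h : ∀ (a : Fin d) (x y : Fin d → ZMod L), y + z = Function.update (x + z) a ((x + z) a + 1) ↔
      y = Function.update x a (x a + 1) := by
    intro a x y
    have e1 : Function.update (x + z) a ((x + z) a + 1) = Function.update x a (x a + 1) + z := by
      funext i
      by_cases hi : i = a
      · subst hi
        simp only [Function.update_self, Pi.add_apply]
        ring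
      · simp only [Function.update_of_ne hi, Pi.add_apply]
    rw [e1, add_left_inj]
  simp only [h]

/-- lower bound of the one-dimensional heat kernel -/
theorem gk_ge {t : ℝ} (ht : 2 ≤ t) (htL : t ≤ (L : ℝ) ^ 2) :
    Real.exp (-10) / 2 * (1 / Real.sqrt t) ≤ gk L t 0 := by
  have ht0 : 0 < t := by linarith
  have hL : (0 : ℝ) < L := by exact_mod_cast Nat.pos_of_ne_zero (NeZero.ne L)
  have hs : 0 < Real.sqrt t := Real.sqrt_pos.2 ht0
  have hs2 : Real.sqrt t ^ 2 = t := Real.sq_sqrt ht0.le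
  obtain ⟨M, hM⟩ : ∃ M : ℕ, M = ⌊(L : ℝ) / (2 * Real.sqrt t)⌋₊ := ⟨_, rfl⟩
  have hM1 : (M : ℝ) ≤ (L : ℝ) / (2 * Real.sqrt t) := by rw [hM]; exact Nat.floor_le (by positivity)
  have hM2 : (L : ℝ) / (2 * Real.sqrt t) < M + 1 := by rw [hM]; exact Nat.lt_floor_add_one _
  have hs1 : 1 < Real.sqrt t := by
    rw [Real.lt_sqrt (by norm_num)]; linarith
  have hML : M < L := by
    have h1 : (L : ℝ) / (2 * Real.sqrt t) < L := by
      rw [div_lt_iff₀ (by positivity)]
      nlinarith
    exact_mod_cast lt_of_le_of_lt hM1 h1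
  have hrc : ∀ m : ℕ, rc ((m : ℕ) : ZMod L) = Real.cos (2 * Real.pi * m / L) := by
    intro m
    unfold rc
    have h2 : (ZMod.stdAddChar ((m : ℕ) : ZMod L) : ℂ) =
        Complex.exp (2 * Real.pi * Complex.I * ((m : ℤ) : ℂ) / L) := by
      rw [← ZMod.stdAddChar_coe]
      norm_num
    have h3 : (2 * Real.pi * Complex.I * ((m : ℤ) : ℂ) / L : ℂ) =
        ((2 * Real.pi * m / L : ℝ) : ℂ) * Complex.I := by
      push_cast
      ring
    rw [h2, h3, Complex.exp_ofReal_mul_I_re]
  have hterm : ∀ m ∈ Finset.range (M + 1), Real.exp (-10) ≤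
      Real.exp (-(t * lam ((m : ℕ) : ZMod L))) := by
    intro m hm
    refine Real.exp_le_exp.2 (neg_le_neg ?_)
    have hmM : (m : ℝ) ≤ M := by exact_mod_cast Nat.lt_succ_iff.1 (Finset.mem_range.1 hm)
    have h1 := Real.one_sub_sq_div_two_le_cos (x := 2 * Real.pi * m / L)
    unfold lam
    rw [hrc]
    have h2 : 2 - 2 * Real.cos (2 * Real.pi * m / L) ≤ (2 * Real.pi * m / L) ^ 2 := by linarith
    have h3 : (2 * Real.pi * m / L) ≤ Real.pi / Real.sqrt t := by
      rw [div_le_div_iff₀ hL hs]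
      have h4 : (m : ℝ) * (2 * Real.sqrt t) ≤ L := by
        have := hmM.trans hM1
        rwa [le_div_iff₀ (by positivity)] at this
      have := Real.pi_pos
      nlinarith
    have h4 : (2 * Real.pi * m / L) ^ 2 ≤ (Real.pi / Real.sqrt t) ^ 2 :=
      pow_le_pow_left₀ (by positivity) h3 2
    have h5 : (Real.pi / Real.sqrt t) ^ 2 = Real.pi ^ 2 / t := by rw [div_pow, hs2]
    have h6 : Real.pi ^ 2 ≤ 10 := by
      have := Real.pi_lt_d2
      have := Real.pi_pos
      nlinarith
    calc t * (2 - 2 * Real.cos (2 * Real.pi * m / L)) ≤ t * (Real.pi ^ 2 / t) :=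
          mul_le_mul_of_nonneg_left (h2.trans (h5 ▸ h4)) ht0.le
      _ = Real.pi ^ 2 := by field_simp
      _ ≤ 10 := h6
  have hinj : Set.InjOn (fun m : ℕ => (m : ZMod L)) (Finset.range (M + 1) : Set ℕ) := by
    intro a ha b hb hab
    have ha' : a < L := by
      have := Finset.mem_range.1 (Finset.mem_coe.1 ha); omega
    have hb' : b < L := by
      have := Finset.mem_range.1 (Finset.mem_coe.1 hb); omega
    have h1 := congrArg ZMod.val hab
    simp only at h1
    rwa [ZMod.val_natCast_of_lt ha', ZMod.val_natCast_of_lt hb'] at h1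
  have hsum : ((M : ℝ) + 1) * Real.exp (-10) ≤
      ∑ k : ZMod L, Real.exp (-(t * lam k)) * rc (k * 0) := by
    have h1 : ∀ k : ZMod L, Real.exp (-(t * lam k)) * rc (k * 0) = Real.exp (-(t * lam k)) := by
      intro k; rw [mul_zero, rc_zero, mul_one]
    rw [Finset.sum_congr rfl fun k _ => h1 k]
    calc ((M : ℝ) + 1) * Real.exp (-10) = ∑ _m ∈ Finset.range (M + 1), Real.exp (-10) := by
          rw [Finset.sum_const, Finset.card_range, nsmul_eq_mul]; push_cast; ring
      _ ≤ ∑ m ∈ Finset.range (M + 1), Real.exp (-(t * lam ((m : ℕ) : ZMod L))) :=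
          Finset.sum_le_sum hterm
      _ = ∑ k ∈ (Finset.range (M + 1)).image (fun m : ℕ => (m : ZMod L)),
            Real.exp (-(t * lam k)) := by
          rw [Finset.sum_image hinj]
      _ ≤ _ := Finset.sum_le_sum_of_subset_of_nonneg (Finset.subset_univ _)
          fun k _ _ => (Real.exp_pos _).le
  unfold gk
  calc Real.exp (-10) / 2 * (1 / Real.sqrt t) =
        1 / L * ((L : ℝ) / (2 * Real.sqrt t) * Real.exp (-10)) := by field_simp
    _ ≤ 1 / L * (((M : ℝ) + 1) * Real.exp (-10)) := by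
        refine mul_le_mul_of_nonneg_left (mul_le_mul_of_nonneg_right hM2.le
          (Real.exp_pos _).le) (by positivity)
    _ ≤ _ := mul_le_mul_of_nonneg_left hsum (by positivity)

theorem num_ge (hL : 3 ≤ L) {t : ℝ} (ht : 2 ≤ t) (htL : t ≤ (L : ℝ) ^ 2) :
    (Real.exp (-10) / 2) ^ d * (L : ℝ) ^ d * t ^ (-((d : ℝ) / 2)) ≤
      stirExp (nnRate d L) t (fun g => (numCycles g : ℝ)) := by
  have ht0 : 0 < t := by linarith
  have h1 : ∀ v : Fin d → ZMod L, (Real.exp (-10) / 2) ^ d * t ^ (-((d : ℝ) / 2)) ≤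
      hop (nnRate d L) t v v := by
    intro v
    have h2 : hop (nnRate d L) t v v = qq (nnRate d L) t v v := rfl
    rw [h2, qq_eq_hk hL]
    unfold hk
    simp only [sub_self]
    rw [Finset.prod_const, Finset.card_univ, Fintype.card_fin]
    have h3 := pow_le_pow_left₀ (by positivity) (gk_ge (L := L) ht htL) d
    refine le_trans (le_of_eq ?_) h3
    rw [mul_pow]
    congr 1
    rw [Real.sqrt_eq_rpow, one_div, ← Real.rpow_neg ht0.le, ← Real.rpow_natCast,
      ← Real.rpow_mul ht0.le]
    congr 1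
    ring
  have h4 : stirExp (nnRate d L) t (fun g => ∑ v, if g v = v then (1 : ℝ) else 0) =
      ∑ v, hop (nnRate d L) t v v :=
    (exp_sum (nnRate d L) t Finset.univ fun v g => if g v = v then (1 : ℝ) else 0).symm
  have h5 : stirExp (nnRate d L) t (fun g => ∑ v, if g v = v then (1 : ℝ) else 0) ≤
      stirExp (nnRate d L) t (fun g => (numCycles g : ℝ)) :=
    exp_mono nn_nonneg ht0.le fun g => fixed_le g
  refine le_trans ?_ h5
  rw [h4]
  calc (Real.exp (-10) / 2) ^ d * (L : ℝ) ^ d * t ^ (-((d : ℝ) / 2)) =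
        ∑ _v : Fin d → ZMod L, (Real.exp (-10) / 2) ^ d * t ^ (-((d : ℝ) / 2)) := by
        rw [Finset.sum_const, Finset.card_univ, Fintype.card_fun, ZMod.card, Fintype.card_fin,
          nsmul_eq_mul]
        push_cast
        ring
    _ ≤ _ := Finset.sum_le_sum fun v _ => h1 v

end torus

end Pool.Agent.Y998.CN
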