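import Pool.Agent.Y998.CN.Defs

/-!
# The quadratic form of the interchange Hamiltonian
-/

set_option autoImplicit false

namespace Pool.Agent.Y998.CN

open Finset Equiv Pool.Agent.Y998.ST

section quad

variable {V : Type} [Fintype V] [DecidableEq V] {q : ℕ}

/-- `∑ (f c - f (c ∘ swap x y))²` -/
noncomputable def DD (f : (V → Fin q) → ℝ) (x y : V) : ℝ := ∑ c, (f c - f (c ∘ swap x y)) ^ 2

theorem comp_swap_iff (x y : V) (c c' : V → Fin q) : c' = c ∘ swap x y ↔ c = c' ∘ swap x y := by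
  have h : ∀ a b : V → Fin q, a = b ∘ swap x y → b = a ∘ swap x y := by
    intro a b h
    rw [h]
    funext z
    simp
  exact ⟨h _ _, h _ _⟩

/-- right multiplication of colourings by a permutation -/
def colPerm (s : Perm V) : Perm (V → Fin q) := s.symm.arrowCongr (Equiv.refl _)

theorem colPerm_apply (s : Perm V) (c : V → Fin q) : colPerm s c = c ∘ s := by
  funext z
  simp [colPerm, Equiv.arrowCongr]

theorem sum_comp (s : Perm V) (f : (V → Fin q) → ℝ) : ∑ c, f (c ∘ s) = ∑ c, f c := by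
  rw [← Equiv.sum_comp (colPerm (q := q) s) f]
  refine Finset.sum_congr rfl fun c _ => ?_
  rw [colPerm_apply]

theorem DD_nonneg (f : (V → Fin q) → ℝ) (x y : V) : 0 ≤ DD f x y :=
  Finset.sum_nonneg fun c _ => sq_nonneg _

theorem DD_symm (f : (V → Fin q) → ℝ) (x y : V) : DD f x y = DD f y x := by
  unfold DD; rw [swap_comm]

theorem DD_diag (f : (V → Fin q) → ℝ) (x : V) : DD f x x = 0 := by
  unfold DD
  rw [swap_self]
  simp

theorem DD_half (f : (V → Fin q) → ℝ) (x y : V) :
    ∑ c, f c * (f c - f (c ∘ swap x y)) = DD f x y / 2 := by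
  unfold DD
  have h1 : ∑ c, f (c ∘ swap x y) ^ 2 = ∑ c, f c ^ 2 := sum_comp (swap x y) fun c => f c ^ 2
  have h2 : ∀ c, (f c - f (c ∘ swap x y)) ^ 2 = 2 * (f c * (f c - f (c ∘ swap x y))) +
      (f (c ∘ swap x y) ^ 2 - f c ^ 2) := fun c => by ring
  rw [Finset.sum_congr rfl fun c _ => h2 c, Finset.sum_add_distrib, Finset.sum_sub_distrib, h1,
    ← Finset.mul_sum]
  ring

theorem ham_symm (J : V → V → ℝ) (c c' : V → Fin q) : ham q J c c' = ham q J c' c := by
  unfold ham
  refine Finset.sum_congr rfl fun x _ => Finset.sum_congr rfl fun y _ => ?_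
  congr 2
  · by_cases h : c' = c
    · rw [if_pos h, if_pos h.symm]
    · rw [if_neg h, if_neg (Ne.symm h)]
  · by_cases h : c' = c ∘ swap x y
    · rw [if_pos h, if_pos ((comp_swap_iff x y c c').1 h)]
    · rw [if_neg h, if_neg (fun h' => h ((comp_swap_iff x y c c').2 h'))]

theorem ham_mulVec (J : V → V → ℝ) (f : (V → Fin q) → ℝ) (c : V → Fin q) :
    ∑ c', ham q J c c' * f c' = ∑ x, ∑ y, J x y / 2 * (f c - f (c ∘ swap x y)) := by
  unfold ham
  simp only [Finset.sum_mul]
  rw [Finset.sum_comm]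
  refine Finset.sum_congr rfl fun x _ => ?_
  rw [Finset.sum_comm]
  refine Finset.sum_congr rfl fun y _ => ?_
  have h : ∀ c' : V → Fin q, J x y / 2 * ((if c' = c then 1 else 0) -
      (if c' = c ∘ swap x y then 1 else 0)) * f c' =
      (if c' = c then J x y / 2 * f c' else 0) -
      (if c' = c ∘ swap x y then J x y / 2 * f c' else 0) := by
    intro c'
    split_ifs <;> ring
  rw [Finset.sum_congr rfl fun c' _ => h c', Finset.sum_sub_distrib, Finset.sum_ite_eq',
    Finset.sum_ite_eq', if_pos (Finset.mem_univ _), if_pos (Finset.mem_univ _)]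
  ring

theorem quad_eq (J : V → V → ℝ) (f : (V → Fin q) → ℝ) :
    ∑ c, ∑ c', f c * ham q J c c' * f c' = ∑ x, ∑ y, J x y / 4 * DD f x y := by
  have h1 : ∀ c, ∑ c', f c * ham q J c c' * f c' =
      ∑ x, ∑ y, J x y / 2 * (f c * (f c - f (c ∘ swap x y))) := by
    intro c
    have h2 : ∀ c', f c * ham q J c c' * f c' = f c * (ham q J c c' * f c') := fun c' => by ring
    rw [Finset.sum_congr rfl fun c' _ => h2 c', ← Finset.mul_sum, ham_mulVec, Finset.mul_sum]
    refine Finset.sum_congr rfl fun x _ => ?_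
    rw [Finset.mul_sum]
    refine Finset.sum_congr rfl fun y _ => ?_
    ring
  rw [Finset.sum_congr rfl fun c _ => h1 c, Finset.sum_comm]
  refine Finset.sum_congr rfl fun x _ => ?_
  rw [Finset.sum_comm]
  refine Finset.sum_congr rfl fun y _ => ?_
  rw [← Finset.mul_sum, DD_half]
  ring

/-- comparison of traces -/
theorem Zf_le (hPB : S_PB) {J J' : V → V → ℝ}
    (h : ∀ f : (V → Fin q) → ℝ, ∑ x, ∑ y, J' x y * DD f x y ≤ ∑ x, ∑ y, J x y * DD f x y)
    {t : ℝ} (ht : 0 ≤ t) : Zf q J t ≤ Zf q J' t := by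
  refine hPB _ (ham q J') (ham q J) (ham_symm J') (ham_symm J) (fun f => ?_) t ht
  rw [quad_eq, quad_eq]
  have h1 := h f
  have h2 : ∀ K : V → V → ℝ, ∑ x, ∑ y, K x y / 4 * DD f x y = (∑ x, ∑ y, K x y * DD f x y) / 4 := by
    intro K
    rw [Finset.sum_div]
    refine Finset.sum_congr rfl fun x _ => ?_
    rw [Finset.sum_div]
    refine Finset.sum_congr rfl fun y _ => ?_
    ring
  rw [h2, h2]
  linarith

theorem ham_const (κ : ℝ) : ham q (fun _ _ : V => κ) = κ • ham q (fun _ _ : V => (1 : ℝ)) := by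
  ext c c'
  rw [Matrix.smul_apply, smul_eq_mul]
  unfold ham
  rw [Finset.mul_sum]
  refine Finset.sum_congr rfl fun x _ => ?_
  rw [Finset.mul_sum]
  refine Finset.sum_congr rfl fun y _ => ?_
  ring

theorem Zf_const (κ t : ℝ) :
    Zf q (fun _ _ : V => κ) t = Zf q (fun _ _ : V => (1 : ℝ)) (κ * t) := by
  unfold Zf
  rw [ham_const]
  unfold E
  congr 2
  rw [← smul_neg, smul_smul, mul_comm]

theorem Zf_zero (t : ℝ) : Zf q (fun _ _ : V => (0 : ℝ)) t = (q : ℝ) ^ Fintype.card V := by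
  rw [Zf_const, zero_mul]
  unfold Zf
  rw [E_zero, Matrix.trace_one, Fintype.card_fun, Fintype.card_fin]
  push_cast
  rfl

/-- the square root of `DD` is a quasi-metric -/
theorem DD_tri (f : (V → Fin q) → ℝ) (x y z : V) :
    Real.sqrt (DD f x z) ≤ Real.sqrt (DD f x y) + 2 * Real.sqrt (DD f y z) := by
  have hn : ∀ a b, 0 ≤ Real.sqrt (DD f a b) := fun a b => Real.sqrt_nonneg _
  by_cases hxz : x = z
  · subst hxz
    rw [DD_diag, Real.sqrt_zero]
    have := hn x y
    have := hn y x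
    linarith
  by_cases hxy : x = y
  · subst hxy
    rw [DD_diag, Real.sqrt_zero]
    have := hn x z
    linarith
  by_cases hyz : y = z
  · subst hyz
    rw [DD_diag, Real.sqrt_zero]
    linarith
  have hs : ∀ w : V, swap x z w = swap y z (swap x y (swap y z w)) := by
    intro w
    by_cases h1 : w = x
    · subst h1
      rw [swap_apply_left, swap_apply_of_ne_of_ne hxy hxz, swap_apply_left, swap_apply_left]
    by_cases h2 : w = y
    · subst h2
      rw [swap_apply_of_ne_of_ne h1 hyz, swap_apply_left,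
        swap_apply_of_ne_of_ne (Ne.symm hxz) (Ne.symm hyz), swap_apply_right]
    by_cases h3 : w = z
    · subst h3
      rw [swap_apply_right, swap_apply_right, swap_apply_right, swap_apply_of_ne_of_ne hxy hxz]
    · rw [swap_apply_of_ne_of_ne h1 h3, swap_apply_of_ne_of_ne h2 h3,
        swap_apply_of_ne_of_ne h1 h2, swap_apply_of_ne_of_ne h2 h3]
  have hnorm : ∀ g : (V → Fin q) → ℝ, ‖(WithLp.toLp 2 g : EuclideanSpace ℝ (V → Fin q))‖ =
      Real.sqrt (∑ c, g c ^ 2) := by
    intro g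
    rw [EuclideanSpace.norm_eq]
    congr 1
    refine Finset.sum_congr rfl fun c _ => ?_
    rw [Real.norm_eq_abs, sq_abs]
  have e1 : (WithLp.toLp 2 (fun c => f c - f (c ∘ swap x z)) : EuclideanSpace ℝ (V → Fin q)) =
      WithLp.toLp 2 (fun c => f c - f (c ∘ swap y z)) +
      WithLp.toLp 2 (fun c => f (c ∘ swap y z) - f ((c ∘ swap y z) ∘ swap x y)) +
      WithLp.toLp 2 (fun c => f ((c ∘ swap y z) ∘ swap x y) -
        f (((c ∘ swap y z) ∘ swap x y) ∘ swap y z)) := by
    rw [← WithLp.toLp_add, ← WithLp.toLp_add]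
    congr 1
    funext c
    simp only [Pi.add_apply]
    have h1 : ((c ∘ swap y z) ∘ swap x y) ∘ swap y z = c ∘ swap x z := by
      funext w
      simp only [Function.comp_apply, hs]
    rw [h1]
    ring
  have h4 : Real.sqrt (DD f x z) =
      ‖(WithLp.toLp 2 (fun c => f c - f (c ∘ swap x z)) : EuclideanSpace ℝ (V → Fin q))‖ := by
    rw [hnorm]; rfl
  have h5 : Real.sqrt (DD f y z) =
      ‖(WithLp.toLp 2 (fun c => f c - f (c ∘ swap y z)) : EuclideanSpace ℝ (V → Fin q))‖ := by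
    rw [hnorm]; rfl
  have h6 : Real.sqrt (DD f x y) = ‖(WithLp.toLp 2 (fun c => f (c ∘ swap y z) -
      f ((c ∘ swap y z) ∘ swap x y)) : EuclideanSpace ℝ (V → Fin q))‖ := by
    rw [hnorm]
    congr 1
    exact (sum_comp (swap y z) fun c => (f c - f (c ∘ swap x y)) ^ 2).symm
  have h7 : Real.sqrt (DD f y z) = ‖(WithLp.toLp 2 (fun c => f ((c ∘ swap y z) ∘ swap x y) -
        f (((c ∘ swap y z) ∘ swap x y) ∘ swap y z)) : EuclideanSpace ℝ (V → Fin q))‖ := by
    rw [hnorm]
    congr 1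
    have h8 := sum_comp (swap x y) fun c : V → Fin q => (f c - f (c ∘ swap y z)) ^ 2
    have h9 := sum_comp (swap y z) fun c : V → Fin q =>
      (f (c ∘ swap x y) - f ((c ∘ swap x y) ∘ swap y z)) ^ 2
    exact (h9.trans h8).symm
  have h10 : 2 * Real.sqrt (DD f y z) = Real.sqrt (DD f y z) + Real.sqrt (DD f y z) := by ring
  rw [h10]
  nth_rewrite 1 [h5]
  rw [h4, h6, e1]
  have h11 := norm_add_le (WithLp.toLp 2 (fun c => f c - f (c ∘ swap y z)) +
      WithLp.toLp 2 (fun c => f (c ∘ swap y z) - f ((c ∘ swap y z) ∘ swap x y)))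
      (WithLp.toLp 2 (fun c => f ((c ∘ swap y z) ∘ swap x y) -
        f (((c ∘ swap y z) ∘ swap x y) ∘ swap y z)) : EuclideanSpace ℝ (V → Fin q))
  have h12 := norm_add_le (WithLp.toLp 2 (fun c => f c - f (c ∘ swap y z)))
      (WithLp.toLp 2 (fun c => f (c ∘ swap y z) - f ((c ∘ swap y z) ∘ swap x y)) :
        EuclideanSpace ℝ (V → Fin q))
  rw [← h7] at h11
  linarith

end quad

end Pool.Agent.Y998.CN
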