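import Pool.Agent.Y998.CN.Tor
import Pool.Agent.Y664.CN.TR
import Pool.Agent.Y641.CN.PB
import Pool.Agent.Y154.CN.PR
import Pool.Agent.Y950.CN.PATH
import Pool.Agent.Y375.CN.EN
import Pool.Agent.Y259.CN.CG

/-!
# The unconditional bounds
-/

set_option autoImplicit false

namespace Pool.Agent.Y998.CN

open Finset Equiv Pool.Agent.Y998.ST

theorem cg : S_CG := Pool.Agent.Y259.CN.t_CG Pool.Agent.Y375.CN.EN.t_EN

theorem bound_q (d q : ℕ) (hd : 1 ≤ d) (hq : 1 ≤ q) : ∃ C : ℝ, 0 < C ∧ ∀ (L : ℕ) (V : Type)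
    [Fintype V] [DecidableEq V] (φ : V ≃ (Fin d → Fin L)) (J : V → V → ℝ), (∀ x y, 0 ≤ J x y) →
    (∀ v w k, co φ w = Function.update (co φ v) k (co φ v k + 1) → 1 ≤ J v w) →
    ∀ t : ℝ, 2 ≤ t → t ≤ (L : ℝ) ^ 2 → Zf q J t ≤ Real.exp (C * (L : ℝ) ^ d * rho d t) :=
  main_bound Pool.Agent.Y641.CN.t_PB Pool.Agent.Y154.CN.t_PR Pool.Agent.Y950.CN.t_PATH cg d q hd hq

theorem bound_cycles (d : ℕ) (hd : 1 ≤ d) (θ : ℝ) (hθ : 0 < θ) : ∃ C : ℝ, 0 < C ∧ ∀ (L : ℕ)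
    (V : Type) [Fintype V] [DecidableEq V] (φ : V ≃ (Fin d → Fin L)) (J : V → V → ℝ),
    (∀ x y, 0 ≤ J x y) →
    (∀ v w k, co φ w = Function.update (co φ v) k (co φ v k + 1) → 1 ≤ J v w) →
    ∀ t : ℝ, 2 ≤ t → t ≤ (L : ℝ) ^ 2 → WN J t θ ≤ C * (L : ℝ) ^ d * rho d t * WW J t θ :=
  cycles_bound Pool.Agent.Y664.CN.t_TR Pool.Agent.Y641.CN.t_PB Pool.Agent.Y154.CN.t_PR
    Pool.Agent.Y950.CN.t_PATH cg d hd θ hθ

/-- points in short cycles, any weight -/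
theorem short_w {V : Type} [Fintype V] [DecidableEq V] {J : V → V → ℝ}
    (hJ : ∀ x y, 0 ≤ J x y) {t : ℝ} (ht : 0 ≤ t) {θ : ℝ} (hθ : 0 < θ) (K : ℕ) :
    ∑ g, stirLaw J t g * θ ^ numCycles g * (Nat.card {w : V // cycleLen g w ≤ K} : ℝ) ≤
      K * WN J t θ := by
  unfold WN
  rw [Finset.mul_sum]
  refine Finset.sum_le_sum fun g _ => ?_
  have h1 := short_le g K
  have h2 : 0 ≤ stirLaw J t g * θ ^ numCycles g := mul_nonneg (law_nonneg hJ ht g) (by positivity)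
  calc stirLaw J t g * θ ^ numCycles g * (Nat.card {w : V // cycleLen g w ≤ K} : ℝ)
      ≤ stirLaw J t g * θ ^ numCycles g * (K * numCycles g) := mul_le_mul_of_nonneg_left h1 h2
    _ = _ := by ring

end Pool.Agent.Y998.CN
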