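import Pool.Agent.Y998.CN.Quad

/-!
# Localisation in blocks
-/

set_option autoImplicit false

namespace Pool.Agent.Y998.CN

open Finset Equiv Pool.Agent.Y998.ST

section blocks

variable {V : Type} [Fintype V] [DecidableEq V] {d L : ℕ}

/-- coordinates of a point -/
def co (φ : V ≃ (Fin d → Fin L)) (v : V) : Fin d → ℕ := fun k => (φ v k : ℕ)

/-- the block of side `l` of a point -/
def blk (φ : V ≃ (Fin d → Fin L)) (l : ℕ) (v : V) : Fin d → Fin (L / l + 1) := fun k =>
  ⟨(φ v k : ℕ) / l, Nat.lt_succ_of_le (Nat.div_le_div_right (φ v k).isLt.le)⟩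

theorem co_inj (φ : V ≃ (Fin d → Fin L)) : Function.Injective (co φ) := by
  intro v w h
  apply φ.injective
  funext k
  exact Fin.ext (congrFun h k)

/-- the block as a box -/
def box (l : ℕ) (i : Fin d → Fin (L / l + 1)) : Finset (Fin d → ℕ) :=
  Fintype.piFinset fun k => Finset.Ico ((i k : ℕ) * l) (min (((i k : ℕ) + 1) * l) L)

theorem box_eq (φ : V ≃ (Fin d → Fin L)) {l : ℕ} (hl : 1 ≤ l) (i : Fin d → Fin (L / l + 1)) :
    box l i = (univ.filter fun v => blk φ l v = i).image (co φ) := by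
  ext m
  unfold box
  rw [Fintype.mem_piFinset, Finset.mem_image]
  constructor
  · intro h
    have hL : ∀ k, m k < L := fun k => lt_of_lt_of_le (Finset.mem_Ico.1 (h k)).2 (min_le_right _ _)
    refine ⟨φ.symm fun k => ⟨m k, hL k⟩, ?_, ?_⟩
    · rw [Finset.mem_filter]
      refine ⟨Finset.mem_univ _, ?_⟩
      funext k
      apply Fin.ext
      change (φ (φ.symm fun k => ⟨m k, hL k⟩) k : ℕ) / l = i k
      rw [Equiv.apply_symm_apply]
      have h1 := Finset.mem_Ico.1 (h k)
      have h2 : m k < ((i k : ℕ) + 1) * l := lt_of_lt_of_le h1.2 (min_le_left _ _)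
      exact Nat.div_eq_of_lt_le h1.1 h2
    · funext k
      change (φ (φ.symm fun k => ⟨m k, hL k⟩) k : ℕ) = m k
      rw [Equiv.apply_symm_apply]
  · rintro ⟨v, hv, rfl⟩ k
    rw [Finset.mem_filter] at hv
    have h1 : ((φ v k : ℕ) / l) = i k := congrArg Fin.val (congrFun hv.2 k)
    rw [Finset.mem_Ico]
    change _ ≤ (φ v k : ℕ) ∧ (φ v k : ℕ) < _
    rw [← h1]
    refine ⟨Nat.div_mul_le_self _ _, lt_min ?_ (φ v k).isLt⟩
    rw [add_mul, one_mul]
    exact Nat.lt_div_mul_add (by omega)

theorem box_card {l : ℕ} (i : Fin d → Fin (L / l + 1)) : (box l i).card ≤ l ^ d := by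
  unfold box
  rw [Fintype.card_piFinset]
  have h1 : ∀ k ∈ (univ : Finset (Fin d)),
      (Finset.Ico ((i k : ℕ) * l) (min (((i k : ℕ) + 1) * l) L)).card ≤ l := by
    intro k _
    rw [Nat.card_Ico]
    have h2 : min (((i k : ℕ) + 1) * l) L ≤ (i k : ℕ) * l + l := by
      refine (min_le_left _ _).trans ?_
      rw [add_mul, one_mul]
    omega
  have h2 := Finset.prod_le_pow_card univ _ l h1
  rwa [Finset.card_univ, Fintype.card_fin] at h2

/-- transport of a function of two points to coordinates -/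
noncomputable def tr (φ : V ≃ (Fin d → Fin L)) (F : V → V → ℝ) (m m' : Fin d → ℕ) : ℝ :=
  ∑ v, ∑ w, if co φ v = m ∧ co φ w = m' then F v w else 0

theorem tr_co (φ : V ≃ (Fin d → Fin L)) (F : V → V → ℝ) (v w : V) :
    tr φ F (co φ v) (co φ w) = F v w := by
  unfold tr
  rw [Finset.sum_eq_single v]
  · rw [Finset.sum_eq_single w]
    · rw [if_pos ⟨rfl, rfl⟩]
    · intro w' _ hw
      rw [if_neg]
      rintro ⟨_, h⟩
      exact hw (co_inj φ h)
    · intro h; exact absurd (Finset.mem_univ _) h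
  · intro v' _ hv
    refine Finset.sum_eq_zero fun w' _ => ?_
    rw [if_neg]
    rintro ⟨h, _⟩
    exact hv (co_inj φ h)
  · intro h; exact absurd (Finset.mem_univ _) h

theorem block_cmp (hPATH : S_PATH) (φ : V ≃ (Fin d → Fin L)) {J : V → V → ℝ}
    (hJ0 : ∀ x y, 0 ≤ J x y)
    (hJ : ∀ v w k, co φ w = Function.update (co φ v) k (co φ v k + 1) → 1 ≤ J v w)
    {l : ℕ} (hl : 1 ≤ l) {q : ℕ} (f : (V → Fin q) → ℝ) (i : Fin d → Fin (L / l + 1)) :
    ∑ v ∈ univ.filter (fun v => blk φ l v = i), ∑ w ∈ univ.filter (fun v => blk φ l v = i),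
      DD f v w ≤ 16 * (d : ℝ) * (l : ℝ) ^ 2 *
        ((univ.filter (fun v => blk φ l v = i)).card : ℝ) *
        ∑ v ∈ univ.filter (fun v => blk φ l v = i), ∑ w, J v w * DD f v w := by
  obtain ⟨r, hr⟩ : ∃ r, r = tr φ (fun v w => Real.sqrt (DD f v w)) := ⟨_, rfl⟩
  have hrc : ∀ v w, r (co φ v) (co φ w) = Real.sqrt (DD f v w) := by
    intro v w; rw [hr, tr_co]
  have hB := box_eq φ hl i
  have hmem : ∀ x ∈ box l i, ∃ v, blk φ l v = i ∧ co φ v = x := by
    intro x hx
    rw [hB, Finset.mem_image] at hx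
    obtain ⟨v, hv, h⟩ := hx
    exact ⟨v, (Finset.mem_filter.1 hv).2, h⟩
  have key := hPATH d (fun k => (i k : ℕ) * l) (fun k => min (((i k : ℕ) + 1) * l) L) l
    (fun k => by
      refine (min_le_left _ _).trans ?_
      rw [add_mul, one_mul]) (box l i) rfl r ?_ ?_ ?_ ?_
  · have hsum : ∀ F : (Fin d → ℕ) → ℝ, ∑ x ∈ box l i, F x =
        ∑ v ∈ univ.filter (fun v => blk φ l v = i), F (co φ v) := by
      intro F
      rw [hB, Finset.sum_image (fun a _ b _ h => co_inj φ h)]
    have hcard : (box l i).card = (univ.filter (fun v => blk φ l v = i)).card := by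
      rw [hB, Finset.card_image_of_injective _ (co_inj φ)]
    rw [hsum, hsum, hcard] at key
    have e1 : ∑ v ∈ univ.filter (fun v => blk φ l v = i), ∑ y ∈ box l i, r (co φ v) y ^ 2 =
        ∑ v ∈ univ.filter (fun v => blk φ l v = i),
          ∑ w ∈ univ.filter (fun v => blk φ l v = i), DD f v w := by
      refine Finset.sum_congr rfl fun v _ => ?_
      rw [hsum]
      refine Finset.sum_congr rfl fun w _ => ?_
      rw [hrc, Real.sq_sqrt (DD_nonneg f v w)]
    rw [e1] at key
    refine key.trans (mul_le_mul_of_nonneg_left (Finset.sum_le_sum fun v _ => ?_) (by positivity))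
    -- neighbours
    have h1 : ∀ k : Fin d, (if Function.update (co φ v) k (co φ v k + 1) ∈ box l i then
        r (co φ v) (Function.update (co φ v) k (co φ v k + 1)) ^ 2 else 0) ≤
        ∑ w, if co φ w = Function.update (co φ v) k (co φ v k + 1) then
          J v w * DD f v w else 0 := by
      intro k
      have h0 : ∀ w, 0 ≤ (if co φ w = Function.update (co φ v) k (co φ v k + 1) then
          J v w * DD f v w else 0) := by
        intro w
        split_ifs
        · exact mul_nonneg (hJ0 _ _) (DD_nonneg _ _ _)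
        · exact le_rfl
      split_ifs with h
      · obtain ⟨w, _, hw⟩ := hmem _ h
        rw [← hw, hrc, Real.sq_sqrt (DD_nonneg f v w)]
        refine le_trans ?_ (Finset.single_le_sum (f := fun w' => if co φ w' = co φ w then
          J v w' * DD f v w' else 0) (fun w' _ => ?_) (Finset.mem_univ w))
        · simp only
          rw [if_pos trivial]
          exact le_mul_of_one_le_left (DD_nonneg _ _ _) (hJ v w k hw)
        · have := h0 w'
          rw [← hw] at this
          exact this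
      · exact Finset.sum_nonneg fun w _ => h0 w
    refine (Finset.sum_le_sum fun k _ => h1 k).trans ?_
    rw [Finset.sum_comm]
    refine Finset.sum_le_sum fun w _ => ?_
    have h2 : 0 ≤ J v w * DD f v w := mul_nonneg (hJ0 _ _) (DD_nonneg _ _ _)
    by_cases hk : ∃ k, co φ w = Function.update (co φ v) k (co φ v k + 1)
    · obtain ⟨k, hk⟩ := hk
      rw [Finset.sum_eq_single k]
      · rw [if_pos hk]
      · intro k' _ hne
        rw [if_neg]
        intro h'
        have h3 := congrFun hk k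
        have h4 := congrFun h' k
        rw [Function.update_self] at h3
        rw [Function.update_of_ne (Ne.symm hne)] at h4
        omega
      · intro h; exact absurd (Finset.mem_univ _) h
    · rw [Finset.sum_eq_zero]
      · exact h2
      · intro k _
        rw [if_neg]
        intro h'
        exact hk ⟨k, h'⟩
  · intro x hx y hy
    obtain ⟨v, _, rfl⟩ := hmem x hx
    obtain ⟨w, _, rfl⟩ := hmem y hy
    rw [hrc]
    exact Real.sqrt_nonneg _
  · intro x hx y hy
    obtain ⟨v, _, rfl⟩ := hmem x hx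
    obtain ⟨w, _, rfl⟩ := hmem y hy
    rw [hrc, hrc, DD_symm]
  · intro x hx
    obtain ⟨v, _, rfl⟩ := hmem x hx
    rw [hrc, DD_diag, Real.sqrt_zero]
  · intro x hx y hy z hz
    obtain ⟨v, _, rfl⟩ := hmem x hx
    obtain ⟨w, _, rfl⟩ := hmem y hy
    obtain ⟨u, _, rfl⟩ := hmem z hz
    rw [hrc, hrc, hrc]
    exact DD_tri f v w u

/-- The trace is at most the product over the blocks of side `l`. -/
theorem Zf_blocks (hPB : S_PB) (hPR : S_PR) (hPATH : S_PATH) (hCG : S_CG)
    (φ : V ≃ (Fin d → Fin L)) {J : V → V → ℝ} (hJ0 : ∀ x y, 0 ≤ J x y)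
    (hJ : ∀ v w k, co φ w = Function.update (co φ v) k (co φ v k + 1) → 1 ≤ J v w)
    (hd : 1 ≤ d) {l : ℕ} (hl : 1 ≤ l) {q : ℕ} (hq : 1 ≤ q) {t : ℝ} (ht : 0 ≤ t)
    (hcond : 2 * ((l : ℝ) ^ d * q + 1) ≤ Real.exp (t / (16 * d * (l : ℝ) ^ 2) / q)) :
    Zf q J t ≤ (2 * ((l : ℝ) ^ d + 1) ^ q) ^ ((L / l + 1) ^ d) := by
  obtain ⟨κ, hκ⟩ : ∃ κ : ℝ, κ = 1 / (16 * d * (l : ℝ) ^ 2) := ⟨_, rfl⟩
  have hd0 : (0 : ℝ) < d := by exact_mod_cast hd
  have hl0 : (0 : ℝ) < l := by exact_mod_cast hl
  have hκ0 : 0 < κ := by rw [hκ]; positivity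
  obtain ⟨n, hn⟩ : ∃ n : (Fin d → Fin (L / l + 1)) → ℝ, n = fun i =>
    ((univ.filter (fun v => blk φ l v = i)).card : ℝ) := ⟨_, rfl⟩
  have hn0 : ∀ i, 0 ≤ n i := fun i => by rw [hn]; positivity
  have hnl : ∀ i, n i ≤ (l : ℝ) ^ d := by
    intro i
    have h1 := box_card (d := d) (L := L) (l := l) i
    rw [box_eq φ hl i, Finset.card_image_of_injective _ (co_inj φ)] at h1
    rw [hn]
    simp only
    exact_mod_cast h1
  have hnc : ∀ i, n i = (Fintype.card {v : V // blk φ l v = i} : ℝ) := by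
    intro i
    rw [hn, Fintype.card_subtype]
  obtain ⟨J', hJ'⟩ : ∃ J' : V → V → ℝ, J' = fun x y =>
    if blk φ l x = blk φ l y then κ / n (blk φ l x) else 0 := ⟨_, rfl⟩
  have hcmp : Zf q J t ≤ Zf q J' t := by
    refine Zf_le hPB (fun f => ?_) ht
    have e1 : ∑ x, ∑ y, J' x y * DD f x y =
        ∑ i, κ / n i * ∑ v ∈ univ.filter (fun v => blk φ l v = i),
          ∑ w ∈ univ.filter (fun v => blk φ l v = i), DD f v w := by
      rw [← Finset.sum_fiberwise univ (blk φ l) (fun x => ∑ y, J' x y * DD f x y)]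
      refine Finset.sum_congr rfl fun i _ => ?_
      rw [Finset.mul_sum]
      refine Finset.sum_congr rfl fun v hv => ?_
      have hv' : blk φ l v = i := (Finset.mem_filter.1 hv).2
      rw [Finset.sum_filter, Finset.mul_sum]
      refine Finset.sum_congr rfl fun w _ => ?_
      rw [hJ']
      simp only
      by_cases h : blk φ l w = i
      · rw [if_pos (by rw [hv', h]), if_pos h, hv']
      · rw [if_neg (by rw [hv']; exact Ne.symm h), if_neg h, zero_mul, mul_zero]
    rw [e1, ← Finset.sum_fiberwise univ (blk φ l) (fun x => ∑ y, J x y * DD f x y)]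
    refine Finset.sum_le_sum fun i _ => ?_
    have h1 := block_cmp hPATH φ hJ0 hJ hl f i
    have h2 : 0 ≤ ∑ v ∈ univ.filter (fun v => blk φ l v = i), ∑ w, J v w * DD f v w :=
      Finset.sum_nonneg fun v _ => Finset.sum_nonneg fun w _ =>
        mul_nonneg (hJ0 _ _) (DD_nonneg _ _ _)
    have h3 : 0 ≤ κ / n i := div_nonneg hκ0.le (hn0 i)
    refine (mul_le_mul_of_nonneg_left h1 h3).trans ?_
    have hni : ((univ.filter (fun v => blk φ l v = i)).card : ℝ) = n i := by rw [hn]
    rw [hni, ← mul_assoc]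
    have h4 : κ / n i * (16 * (d : ℝ) * (l : ℝ) ^ 2 * n i) ≤ 1 := by
      rcases eq_or_lt_of_le (hn0 i) with h | h
      · rw [← h]; simp
      · rw [hκ]
        have : 1 / (16 * (d : ℝ) * (l : ℝ) ^ 2) / n i * (16 * (d : ℝ) * (l : ℝ) ^ 2 * n i) = 1 := by
          field_simp
        exact this.le
    calc κ / n i * (16 * (d : ℝ) * (l : ℝ) ^ 2 * n i) *
          ∑ v ∈ univ.filter (fun v => blk φ l v = i), ∑ w, J v w * DD f v w
        ≤ 1 * ∑ v ∈ univ.filter (fun v => blk φ l v = i), ∑ w, J v w * DD f v w :=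
          mul_le_mul_of_nonneg_right h4 h2
      _ = _ := one_mul _
  refine hcmp.trans ?_
  rw [hPR V (Fin d → Fin (L / l + 1)) (blk φ l) J' q t (fun x y h => by rw [hJ']; simp [h])]
  have hcardI : Fintype.card (Fin d → Fin (L / l + 1)) = (L / l + 1) ^ d := by
    rw [Fintype.card_fun, Fintype.card_fin, Fintype.card_fin]
  rw [← hcardI, ← Finset.card_univ]
  have hZ0 : ∀ (W : Type) [Fintype W] [DecidableEq W] (K : W → W → ℝ) (u : ℝ), (∀ x y, 0 ≤ K x y) →
      0 ≤ u → 0 ≤ Zf q K u := by
    intro W _ _ K u hK hu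
    -- nonnegativity of the trace through the quadratic form
    have h1 : Zf q K u = ∑ c, E (-(ham q K)) u c c := rfl
    rw [h1]
    refine Finset.sum_nonneg fun c _ => ?_
    have h2 : u = u / 2 + u / 2 := by ring
    have hsymm : ∀ c c' : W → Fin q, E (-(ham q K)) (u / 2) c c' =
        E (-(ham q K)) (u / 2) c' c := by
      intro c c'
      have h3 : (-(ham q K)).transpose = -(ham q K) := by
        ext a b
        rw [Matrix.transpose_apply, Matrix.neg_apply, Matrix.neg_apply, ham_symm]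
      have h4 : (E (-(ham q K)) (u / 2)).transpose = E (-(ham q K)) (u / 2) := by
        unfold E
        rw [← Matrix.exp_transpose, Matrix.transpose_smul, h3]
      calc E (-(ham q K)) (u / 2) c c' = (E (-(ham q K)) (u / 2)).transpose c c' := by rw [h4]
        _ = _ := rfl
    rw [h2, E_add, Matrix.mul_apply]
    refine Finset.sum_nonneg fun c' _ => ?_
    rw [hsymm c' c]
    exact mul_self_nonneg _
  have hZi : ∀ i : Fin d → Fin (L / l + 1),
      Zf q (fun x y : {v : V // blk φ l v = i} => J' x y) t =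
      Zf q (fun _ _ : {v : V // blk φ l v = i} => (1 : ℝ))
        (κ * t / Fintype.card {v : V // blk φ l v = i}) := by
    intro i
    have h1 : (fun x y : {v : V // blk φ l v = i} => J' x y) =
        fun _ _ : {v : V // blk φ l v = i} => κ / n i := by
      funext x y
      rw [hJ']
      simp only
      rw [if_pos (by rw [x.2, y.2]), x.2]
    rw [h1, Zf_const, hnc]
    congr 1
    ring
  rw [← Finset.prod_const]
  refine Finset.prod_le_prod (fun i _ => ?_) (fun i _ => ?_)
  · rw [hZi]
    refine hZ0 _ _ _ (fun _ _ => zero_le_one) ?_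
    positivity
  · rw [hZi]
    have h1 := hCG {v : V // blk φ l v = i} q (κ * t) hq (by positivity) ?_
    · refine h1.trans (mul_le_mul_of_nonneg_left (pow_le_pow_left₀ (by positivity) ?_ q)
        (by norm_num))
      have := hnl i
      rw [hnc] at this
      linarith
    · have h2 : t / (16 * d * (l : ℝ) ^ 2) = κ * t := by rw [hκ]; ring
      rw [h2] at hcond
      refine le_trans ?_ hcond
      have h3 := hnl i
      rw [hnc] at h3
      have h4 : (Fintype.card {v : V // blk φ l v = i} : ℝ) * q ≤ (l : ℝ) ^ d * q :=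
        mul_le_mul_of_nonneg_right h3 (by positivity)
      linarith

end blocks

end Pool.Agent.Y998.CN
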