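import Pool.Agent.Y998.ST.Stir

/-!
# The number of cycles of random stirring: definitions and statements

`Zf q J t` is the trace of `exp (-t H)` for the interchange Hamiltonian
`H = ∑ J x y / 2 * (1 - swap x y)` (sum over ordered pairs) on functions of `q`-colourings of `V`.
-/

set_option autoImplicit false

namespace Pool.Agent.Y998.CN

open Finset Equiv Pool.Agent.Y998.ST

/-- The number of cycles of `g`, fixed points included. -/
noncomputable def numCycles {V : Type} (g : Perm V) : ℕ :=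
  Nat.card (Quotient (Perm.SameCycle.setoid g))

/-- The interchange Hamiltonian on functions of `q`-colourings. -/
noncomputable def ham {V : Type} [Fintype V] [DecidableEq V] (q : ℕ) (J : V → V → ℝ) :
    Matrix (V → Fin q) (V → Fin q) ℝ :=
  fun c c' => ∑ x, ∑ y, J x y / 2 *
    ((if c' = c then 1 else 0) - (if c' = c ∘ swap x y then 1 else 0))

/-- The trace of `exp (-t H)`. -/
noncomputable def Zf {V : Type} [Fintype V] [DecidableEq V] (q : ℕ) (J : V → V → ℝ) (t : ℝ) : ℝ :=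
  (E (-(ham q J)) t).trace

/-- TR: the trace is the mean of `q ^ (number of cycles)`. -/
def S_TR : Prop := ∀ (V : Type) [Fintype V] [DecidableEq V] (J : V → V → ℝ) (q : ℕ) (t : ℝ),
  ∑ g, stirLaw J t g * (q : ℝ) ^ numCycles g = Zf q J t

/-- PB: monotonicity of the trace of the exponential (Peierls' inequality). -/
def S_PB : Prop := ∀ (S : Type) [Fintype S] [DecidableEq S] (A B : Matrix S S ℝ),
  (∀ x y, A x y = A y x) → (∀ x y, B x y = B y x) →
  (∀ f : S → ℝ, ∑ x, ∑ y, f x * A x y * f y ≤ ∑ x, ∑ y, f x * B x y * f y) →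
  ∀ t : ℝ, 0 ≤ t → (E (-B) t).trace ≤ (E (-A) t).trace

/-- PR: the trace factorises over the blocks of a partition when there are no rates between
different blocks. -/
def S_PR : Prop := ∀ (V I : Type) [Fintype V] [DecidableEq V] [Fintype I] [DecidableEq I]
  (b : V → I) (J : V → V → ℝ) (q : ℕ) (t : ℝ), (∀ x y, b x ≠ b y → J x y = 0) →
  Zf q J t = ∏ i, Zf q (fun x y : {v : V // b v = i} => J x y) t

/-- PATH: comparison of a box with the complete graph. -/
def S_PATH : Prop := ∀ (d : ℕ) (a b : Fin d → ℕ) (l : ℕ), (∀ i, b i ≤ a i + l) →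
  ∀ B : Finset (Fin d → ℕ), B = Fintype.piFinset (fun i => Finset.Ico (a i) (b i)) →
  ∀ r : (Fin d → ℕ) → (Fin d → ℕ) → ℝ,
    (∀ x ∈ B, ∀ y ∈ B, 0 ≤ r x y) → (∀ x ∈ B, ∀ y ∈ B, r x y = r y x) → (∀ x ∈ B, r x x = 0) →
    (∀ x ∈ B, ∀ y ∈ B, ∀ z ∈ B, r x z ≤ r x y + 2 * r y z) →
    ∑ x ∈ B, ∑ y ∈ B, r x y ^ 2 ≤ 16 * (d : ℝ) * (l : ℝ) ^ 2 * (B.card : ℝ) *
      ∑ x ∈ B, ∑ i, if Function.update x i (x i + 1) ∈ B then
        r x (Function.update x i (x i + 1)) ^ 2 else 0

/-- EN: an eigenfunction of the complete graph Hamiltonian that is orthogonal to all patterns on at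
most `j` sites has a large eigenvalue. -/
def S_EN : Prop := ∀ (V : Type) [Fintype V] [DecidableEq V] (q j : ℕ) (lam : ℝ)
  (f : (V → Fin q) → ℝ), f ≠ 0 →
  (∀ c, ∑ c', ham q (fun _ _ : V => (1 : ℝ)) c c' * f c' = lam * f c) →
  (∀ (ν : V → Option (Fin q)) (μ : Fin q → ℕ), (univ.filter fun x => ν x ≠ none).card ≤ j →
    ∑ c : V → Fin q, (if (∀ x a, ν x = some a → c x = a) ∧
      (∀ a, (univ.filter fun x => c x = a).card = μ a) then f c else 0) = 0) →
  ((j : ℝ) + 1) * Fintype.card V / q ≤ lam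

/-- CG: the trace for the complete graph. -/
def S_CG : Prop := ∀ (V : Type) [Fintype V] [DecidableEq V] (q : ℕ) (s : ℝ), 1 ≤ q → 0 ≤ s →
  2 * ((Fintype.card V : ℝ) * q + 1) ≤ Real.exp (s / q) →
  Zf q (fun _ _ : V => (1 : ℝ)) (s / Fintype.card V) ≤ 2 * ((Fintype.card V : ℝ) + 1) ^ q

end Pool.Agent.Y998.CN
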