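import Pool.Agent.Y998.CN.Param

/-!
# Consequences for the cycles
-/

set_option autoImplicit false

namespace Pool.Agent.Y998.CN

open Finset Equiv Pool.Agent.Y998.ST

section counting

variable {V : Type} [Fintype V] [DecidableEq V]

/-- Points in cycles with at most `K` points. -/
theorem short_le (g : Perm V) (K : ℕ) :
    (Nat.card {v : V // cycleLen g v ≤ K} : ℝ) ≤ K * numCycles g := by
  classical
  obtain ⟨s, hs⟩ : ∃ s : Finset V, s = univ.filter fun v => cycleLen g v ≤ K := ⟨_, rfl⟩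
  have h1 : Nat.card {v : V // cycleLen g v ≤ K} = s.card := by
    rw [Nat.card_eq_fintype_card, Fintype.card_subtype, hs]
  have : Fintype (Quotient (Perm.SameCycle.setoid g)) := Fintype.ofFinite _
  let f : V → Quotient (Perm.SameCycle.setoid g) := fun v => Quotient.mk _ v
  have h2 : s.card ≤ K * (s.image f).card := by
    refine Finset.card_le_mul_card_image s K fun a ha => ?_
    obtain ⟨v0, hv0, rfl⟩ := Finset.mem_image.1 ha
    rw [hs, Finset.mem_filter] at hv0
    refine le_trans ?_ hv0.2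
    unfold cycleLen
    rw [Nat.card_eq_fintype_card, Fintype.card_subtype]
    refine Finset.card_le_card fun w hw => ?_
    rw [Finset.mem_filter] at hw ⊢
    refine ⟨Finset.mem_univ _, ?_⟩
    have h3 : (Perm.SameCycle.setoid g).r w v0 := Quotient.exact hw.2
    exact Perm.SameCycle.symm h3
  have h3 : (s.image f).card ≤ numCycles g := by
    unfold numCycles
    rw [Nat.card_eq_fintype_card]
    exact Finset.card_le_univ _
  rw [h1]
  exact_mod_cast h2.trans (Nat.mul_le_mul_left K h3)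

theorem fixed_le (g : Perm V) : (∑ v, if g v = v then (1 : ℝ) else 0) ≤ numCycles g := by
  classical
  have : Fintype (Quotient (Perm.SameCycle.setoid g)) := Fintype.ofFinite _
  rw [Finset.sum_boole]
  let f : V → Quotient (Perm.SameCycle.setoid g) := fun v => Quotient.mk _ v
  have h1 : (univ.filter fun v => g v = v).card ≤ numCycles g := by
    unfold numCycles
    rw [Nat.card_eq_fintype_card, ← Finset.card_univ]
    refine Finset.card_le_card_of_injOn f (fun _ _ => Finset.mem_coe.2 (Finset.mem_univ _)) ?_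
    intro v hv w hw h
    rw [Finset.mem_coe, Finset.mem_filter] at hv hw
    have h3 : (Perm.SameCycle.setoid g).r v w := Quotient.exact h
    obtain ⟨n, hn⟩ := (h3 : g.SameCycle v w)
    rw [← hn, Function.IsFixedPt.perm_zpow hv.2]
  exact_mod_cast h1

end counting

section jensen

variable {ι : Type} [Fintype ι]

/-- Jensen's inequality -/
theorem jensen (p : ι → ℝ) (hp : ∀ i, 0 ≤ p i) (hp1 : ∑ i, p i = 1) (N : ι → ℕ) {a : ℝ}
    (ha : 0 < a) : (∑ i, p i * N i) * Real.log a ≤ Real.log (∑ i, p i * a ^ N i) := by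
  have h1 := convexOn_exp.map_sum_le (t := Finset.univ) (w := p)
    (p := fun i => (N i : ℝ) * Real.log a) (fun i _ => hp i) hp1 (fun i _ => Set.mem_univ _)
  simp only [smul_eq_mul] at h1
  have h2 : ∀ i, Real.exp ((N i : ℝ) * Real.log a) = a ^ N i := by
    intro i
    rw [Real.exp_nat_mul, Real.exp_log ha]
  simp only [h2] at h1
  have h3 : ∑ i, p i * ((N i : ℝ) * Real.log a) = (∑ i, p i * N i) * Real.log a := by
    rw [Finset.sum_mul]
    exact Finset.sum_congr rfl fun i _ => by ring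
  rw [h3] at h1
  rw [← Real.log_exp ((∑ i, p i * N i) * Real.log a)]
  exact Real.log_le_log (Real.exp_pos _) h1

end jensen

section means

variable {V : Type} [Fintype V] [DecidableEq V]

/-- the partition function with weight `θ` per cycle -/
noncomputable def WW (J : V → V → ℝ) (t θ : ℝ) : ℝ := ∑ g, stirLaw J t g * θ ^ numCycles g

/-- the unnormalised mean number of cycles with weight `θ` per cycle -/
noncomputable def WN (J : V → V → ℝ) (t θ : ℝ) : ℝ :=
  ∑ g, stirLaw J t g * θ ^ numCycles g * numCycles g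

theorem law_sum (J : V → V → ℝ) (t : ℝ) : ∑ g, stirLaw J t g = 1 := by
  have h := exp_const J t 1
  unfold stirExp at h
  simpa using h

theorem jensen_law {J : V → V → ℝ} (hJ : ∀ x y, 0 ≤ J x y) {t : ℝ} (ht : 0 ≤ t) {a : ℝ}
    (ha : 0 < a) : WN J t 1 * Real.log a ≤ Real.log (WW J t a) := by
  have h1 := jensen (stirLaw J t) (law_nonneg hJ ht) (law_sum J t) numCycles ha
  unfold WN WW
  simpa using h1

theorem WW_pos {J : V → V → ℝ} (hJ : ∀ x y, 0 ≤ J x y) {t : ℝ} (ht : 0 ≤ t) {θ : ℝ}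
    (hθ : 0 < θ) : 0 < WW J t θ := by
  have h1 : 0 ≤ WW J t θ := Finset.sum_nonneg fun g _ =>
    mul_nonneg (law_nonneg hJ ht g) (by positivity)
  refine lt_of_le_of_ne h1 fun h => ?_
  have h2 : ∀ g ∈ (univ : Finset (Perm V)), stirLaw J t g * θ ^ numCycles g = 0 :=
    (Finset.sum_eq_zero_iff_of_nonneg fun g _ =>
      mul_nonneg (law_nonneg hJ ht g) (by positivity)).1 h.symm
  have h3 : ∀ g, stirLaw J t g = 0 := by
    intro g
    have := h2 g (Finset.mem_univ g)
    rcases mul_eq_zero.1 this with h | h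
    · exact h
    · exact absurd h (by positivity)
  have h4 := law_sum J t
  simp only [h3, Finset.sum_const_zero] at h4
  norm_num at h4

theorem WN_nonneg {J : V → V → ℝ} (hJ : ∀ x y, 0 ≤ J x y) {t : ℝ} (ht : 0 ≤ t) {θ : ℝ}
    (hθ : 0 < θ) : 0 ≤ WN J t θ :=
  Finset.sum_nonneg fun g _ => mul_nonneg (mul_nonneg (law_nonneg hJ ht g) (by positivity))
    (by positivity)

/-- mean number of cycles with weight `θ`, in terms of partition functions -/
theorem WN_le {J : V → V → ℝ} (hJ : ∀ x y, 0 ≤ J x y) {t : ℝ} (ht : 0 ≤ t) {θ b : ℝ}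
    (hθ : 0 < θ) (hb : 0 < b) :
    WN J t θ / WW J t θ * Real.log (b / θ) ≤
      Real.log (WW J t b) + WN J t 1 * |Real.log θ| := by
  have hW := WW_pos hJ ht hθ
  have hWb := WW_pos hJ ht hb
  have h1 := jensen (fun g => stirLaw J t g * θ ^ numCycles g / WW J t θ)
    (fun g => div_nonneg (mul_nonneg (law_nonneg hJ ht g) (by positivity)) hW.le)
    (by rw [← Finset.sum_div]; exact div_self hW.ne') numCycles (a := b / θ) (by positivity)
  have h2 : ∑ g, stirLaw J t g * θ ^ numCycles g / WW J t θ * (numCycles g : ℝ) =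
      WN J t θ / WW J t θ := by
    unfold WN
    rw [Finset.sum_div]
    exact Finset.sum_congr rfl fun g _ => by ring
  have h3 : ∑ g, stirLaw J t g * θ ^ numCycles g / WW J t θ * (b / θ) ^ numCycles g =
      WW J t b / WW J t θ := by
    rw [show WW J t b = ∑ g, stirLaw J t g * b ^ numCycles g from rfl, Finset.sum_div]
    refine Finset.sum_congr rfl fun g _ => ?_
    rw [div_pow]
    have : θ ^ numCycles g ≠ 0 := by positivity
    field_simp
  rw [h2, h3, Real.log_div hWb.ne' hW.ne'] at h1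
  have h4 := jensen_law hJ ht hθ
  have h5 : -(WN J t 1 * |Real.log θ|) ≤ WN J t 1 * Real.log θ := by
    have := neg_abs_le (Real.log θ)
    have := WN_nonneg hJ ht (θ := 1) one_pos
    nlinarith
  linarith

end means

/-- The mean number of cycles, for every weight. -/
theorem cycles_bound (hTR : S_TR) (hPB : S_PB) (hPR : S_PR) (hPATH : S_PATH) (hCG : S_CG) (d : ℕ)
    (hd : 1 ≤ d) (θ : ℝ) (hθ : 0 < θ) : ∃ C : ℝ, 0 < C ∧ ∀ (L : ℕ) (V : Type) [Fintype V]
    [DecidableEq V] (φ : V ≃ (Fin d → Fin L)) (J : V → V → ℝ), (∀ x y, 0 ≤ J x y) →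
    (∀ v w k, co φ w = Function.update (co φ v) k (co φ v k + 1) → 1 ≤ J v w) →
    ∀ t : ℝ, 2 ≤ t → t ≤ (L : ℝ) ^ 2 → WN J t θ ≤ C * (L : ℝ) ^ d * rho d t * WW J t θ := by
  obtain ⟨q, hq⟩ : ∃ q : ℕ, q = ⌈θ⌉₊ + 1 := ⟨_, rfl⟩
  have hq1 : 1 ≤ q := by omega
  have hqθ : θ < q := by
    rw [hq]
    have := Nat.le_ceil θ
    push_cast
    linarith
  obtain ⟨C1, hC1, h1⟩ := main_bound hPB hPR hPATH hCG d q hd hq1
  obtain ⟨C2, hC2, h2⟩ := main_bound hPB hPR hPATH hCG d 2 hd (by norm_num)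
  have hlogq : 0 < Real.log ((q : ℝ) / θ) := Real.log_pos (by rw [one_lt_div hθ]; exact hqθ)
  have hlog2 : 0 < Real.log 2 := Real.log_pos (by norm_num)
  refine ⟨(C1 + C2 / Real.log 2 * |Real.log θ|) / Real.log ((q : ℝ) / θ), by positivity, ?_⟩
  intro L V _ _ φ J hJ0 hJ t ht htL
  have ht0 : 0 ≤ t := by linarith
  have hρ := rho_pos d ht
  have hZ : ∀ m : ℕ, WW J t m = Zf m J t := fun m => hTR V J m t
  have hW := WW_pos hJ0 ht0 hθ
  have hLd : (0 : ℝ) ≤ (L : ℝ) ^ d := by positivity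
  -- weight 1
  have e1 : WN J t 1 ≤ C2 / Real.log 2 * (L : ℝ) ^ d * rho d t := by
    have h3 := jensen_law hJ0 ht0 (a := 2) (by norm_num)
    have h4 := h2 L V φ J hJ0 hJ t ht htL
    rw [← hZ 2] at h4
    have h5 : Real.log (WW J t 2) ≤ C2 * (L : ℝ) ^ d * rho d t := by
      rw [← Real.log_exp (C2 * (L : ℝ) ^ d * rho d t)]
      exact Real.log_le_log (WW_pos hJ0 ht0 (by norm_num)) (by exact_mod_cast h4)
    have h6 : C2 / Real.log 2 * (L : ℝ) ^ d * rho d t =
        (C2 * (L : ℝ) ^ d * rho d t) / Real.log 2 := by ring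
    rw [h6, le_div_iff₀ hlog2]
    linarith
  have e2 := WN_le hJ0 ht0 hθ (b := q) (by linarith)
  have e3 : Real.log (WW J t q) ≤ C1 * (L : ℝ) ^ d * rho d t := by
    rw [← Real.log_exp (C1 * (L : ℝ) ^ d * rho d t)]
    refine Real.log_le_log (WW_pos hJ0 ht0 (by linarith)) ?_
    rw [hZ q]
    exact h1 L V φ J hJ0 hJ t ht htL
  have e4 : WN J t θ / WW J t θ * Real.log ((q : ℝ) / θ) ≤
      (C1 + C2 / Real.log 2 * |Real.log θ|) * ((L : ℝ) ^ d * rho d t) := by
    have h7 : WN J t 1 * |Real.log θ| ≤ (C2 / Real.log 2 * (L : ℝ) ^ d * rho d t) * |Real.log θ| :=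
      mul_le_mul_of_nonneg_right e1 (abs_nonneg _)
    nlinarith
  rw [← le_div_iff₀ hlogq, div_le_iff₀ hW] at e4
  refine e4.trans (le_of_eq ?_)
  ring

end Pool.Agent.Y998.CN
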