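import Pool.Agent.Y998.CN.Block

/-!
# Choice of the block size
-/

set_option autoImplicit false

namespace Pool.Agent.Y998.CN

open Finset Equiv Pool.Agent.Y998.ST

/-- the rate function -/
noncomputable def rho (d : ℕ) (t : ℝ) : ℝ :=
  t ^ (-((d : ℝ) / 2)) * (Real.log t) ^ (1 + (d : ℝ) / 2)

theorem rho_eq (d : ℕ) {t : ℝ} (ht : 2 ≤ t) :
    rho d t = (Real.log t / t) ^ ((d : ℝ) / 2) * Real.log t := by
  have ht0 : 0 < t := by linarith
  have hlog : 0 < Real.log t := Real.log_pos (by linarith)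
  unfold rho
  rw [Real.div_rpow hlog.le ht0.le, Real.rpow_neg ht0.le, Real.rpow_add hlog, Real.rpow_one]
  ring

theorem rho_pos (d : ℕ) {t : ℝ} (ht : 2 ≤ t) : 0 < rho d t := by
  have ht0 : 0 < t := by linarith
  have hlog : 0 < Real.log t := Real.log_pos (by linarith)
  unfold rho
  positivity

theorem log_ge {t : ℝ} (ht : 2 ≤ t) : 1 / 2 ≤ Real.log t := by
  have h1 := Real.log_two_gt_d9
  have h2 : Real.log 2 ≤ Real.log t := Real.log_le_log (by norm_num) ht
  linarith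

theorem Zf_triv (hPB : S_PB) {V : Type} [Fintype V] [DecidableEq V] {J : V → V → ℝ} {q : ℕ}
    (hJ0 : ∀ x y, 0 ≤ J x y) {t : ℝ} (ht : 0 ≤ t) : Zf q J t ≤ (q : ℝ) ^ Fintype.card V := by
  rw [← Zf_zero t]
  refine Zf_le hPB (fun f => ?_) ht
  simp only [zero_mul, Finset.sum_const_zero]
  exact Finset.sum_nonneg fun x _ => Finset.sum_nonneg fun y _ =>
    mul_nonneg (hJ0 _ _) (DD_nonneg _ _ _)

theorem main_bound (hPB : S_PB) (hPR : S_PR) (hPATH : S_PATH) (hCG : S_CG) (d q : ℕ) (hd : 1 ≤ d)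
    (hq : 1 ≤ q) : ∃ C : ℝ, 0 < C ∧ ∀ (L : ℕ) (V : Type) [Fintype V] [DecidableEq V]
    (φ : V ≃ (Fin d → Fin L)) (J : V → V → ℝ), (∀ x y, 0 ≤ J x y) →
    (∀ v w k, co φ w = Function.update (co φ v) k (co φ v k + 1) → 1 ≤ J v w) →
    ∀ t : ℝ, 2 ≤ t → t ≤ (L : ℝ) ^ 2 → Zf q J t ≤ Real.exp (C * (L : ℝ) ^ d * rho d t) := by
  have hd0 : (1 : ℝ) ≤ d := by exact_mod_cast hd
  have hq0 : (1 : ℝ) ≤ q := by exact_mod_cast hq
  have hl4 : 1 ≤ Real.log (4 * q) := by
    have h1 : Real.log (Real.exp 1) ≤ Real.log (4 * q) := by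
      refine Real.log_le_log (Real.exp_pos 1) ?_
      have := Real.exp_one_lt_d9
      linarith
    rwa [Real.log_exp] at h1
  obtain ⟨A, hA⟩ : ∃ A : ℝ, A = 16 * d * q * (2 * Real.log (4 * q) + d) := ⟨_, rfl⟩
  have hA2 : 2 ≤ A := by
    rw [hA]
    have h1 : (1 : ℝ) ≤ d * q := one_le_mul_of_one_le_of_one_le hd0 hq0
    nlinarith
  have hA0 : 0 < A := by linarith
  have hlq : 0 ≤ Real.log q := Real.log_nonneg hq0
  refine ⟨4 ^ d * A ^ ((d : ℝ) / 2) * ((1 + q) + q * d / 2) + 2 * A ^ ((d : ℝ) / 2) * Real.log q,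
    by positivity, ?_⟩
  intro L V _ _ φ J hJ0 hJ t ht htL
  have ht0 : 0 < t := by linarith
  have hlog := log_ge ht
  have hlog0 : 0 < Real.log t := by linarith
  have hρ := rho_eq d ht
  obtain ⟨y, hy⟩ : ∃ y : ℝ, y = Real.log t / t := ⟨_, rfl⟩
  have hy0 : 0 < y := by rw [hy]; positivity
  rw [← hy] at hρ
  have hyt : y * t = Real.log t := by rw [hy]; field_simp
  have hLn : (0 : ℝ) ≤ L := by positivity
  have hLd : (0 : ℝ) ≤ (L : ℝ) ^ d := by positivity
  have hyd : 0 ≤ y ^ ((d : ℝ) / 2) := by positivity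
  have hAd : 0 < A ^ ((d : ℝ) / 2) := by positivity
  obtain ⟨u, hu⟩ : ∃ u : ℝ, u = Real.sqrt (A * y) := ⟨_, rfl⟩
  have hu0 : 0 < u := by rw [hu]; positivity
  have hu2 : u ^ 2 = A * y := by rw [hu]; exact Real.sq_sqrt (by positivity)
  have hud : u ^ d = A ^ ((d : ℝ) / 2) * y ^ ((d : ℝ) / 2) := by
    rw [hu, Real.sqrt_eq_rpow, ← Real.rpow_natCast, ← Real.rpow_mul (by positivity),
      ← Real.mul_rpow hA0.le hy0.le]
    congr 1
    ring
  rcases le_or_gt u 1 with h | h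
  · -- large times
    obtain ⟨l, hl⟩ : ∃ l : ℕ, l = ⌊1 / u⌋₊ := ⟨_, rfl⟩
    have h1u : 1 ≤ 1 / u := by rw [le_div_iff₀ hu0]; linarith
    have hl1 : 1 ≤ l := by rw [hl]; exact Nat.le_floor (by exact_mod_cast h1u)
    have hl0 : (1 : ℝ) ≤ l := by exact_mod_cast hl1
    have hlu : (l : ℝ) ≤ 1 / u := by rw [hl]; exact Nat.floor_le (by positivity)
    have hlu' : 1 / u < (l : ℝ) + 1 := by rw [hl]; exact Nat.lt_floor_add_one _
    have hlinv : 1 / (l : ℝ) ≤ 2 * u := by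
      rw [div_le_iff₀ (by linarith)]
      rw [div_lt_iff₀ hu0] at hlu'
      nlinarith
    have hl2 : (l : ℝ) ^ 2 * (A * y) ≤ 1 := by
      rw [← hu2, ← mul_pow]
      have h1 : (l : ℝ) * u ≤ 1 := by rwa [le_div_iff₀ hu0] at hlu
      have h2 : 0 ≤ (l : ℝ) * u := by positivity
      exact pow_le_one₀ h2 h1
    have hl2t : (l : ℝ) ^ 2 * (A * Real.log t) ≤ t := by
      rw [← hyt]
      nlinarith
    have hlt : (l : ℝ) ^ 2 ≤ t := by
      have h1 : 1 ≤ A * Real.log t := by nlinarith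
      nlinarith [sq_nonneg (l : ℝ)]
    have hlsq : (l : ℝ) ≤ Real.sqrt t := Real.le_sqrt_of_sq_le hlt
    have hlL : (l : ℝ) ≤ L := by
      have : (l : ℝ) ^ 2 ≤ (L : ℝ) ^ 2 := hlt.trans htL
      exact le_of_sq_le_sq this hLn
    have hld : (l : ℝ) ^ d ≤ t ^ ((d : ℝ) / 2) := by
      refine (pow_le_pow_left₀ (by linarith) hlsq d).trans (le_of_eq ?_)
      rw [Real.sqrt_eq_rpow, ← Real.rpow_natCast, ← Real.rpow_mul ht0.le]
      congr 1
      ring
    have hld1 : (1 : ℝ) ≤ (l : ℝ) ^ d := one_le_pow₀ hl0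
    have hcond : 2 * ((l : ℝ) ^ d * q + 1) ≤ Real.exp (t / (16 * d * (l : ℝ) ^ 2) / q) := by
      have h1 : 2 * ((l : ℝ) ^ d * q + 1) ≤ 4 * q * t ^ ((d : ℝ) / 2) := by
        have h2 : 1 ≤ (l : ℝ) ^ d * q := one_le_mul_of_one_le_of_one_le hld1 hq0
        nlinarith
      have h2 : 4 * q * t ^ ((d : ℝ) / 2) = Real.exp (Real.log (4 * q) + Real.log t * (d / 2)) := by
        rw [Real.exp_add, Real.exp_log (by linarith), Real.rpow_def_of_pos ht0]
      rw [h2] at h1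
      refine h1.trans (Real.exp_le_exp.2 ?_)
      have h3 : (2 * Real.log (4 * q) + d) * Real.log t ≤ t / (16 * d * (l : ℝ) ^ 2) / q := by
        rw [div_div, le_div_iff₀ (by positivity)]
        calc (2 * Real.log (4 * q) + d) * Real.log t * (16 * d * (l : ℝ) ^ 2 * q)
            = (l : ℝ) ^ 2 * (A * Real.log t) := by rw [hA]; ring
          _ ≤ t := hl2t
      refine le_trans ?_ h3
      nlinarith
    have hmain := Zf_blocks hPB hPR hPATH hCG φ hJ0 hJ hd hl1 hq ht0.le hcond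
    refine hmain.trans ?_
    -- the logarithm
    obtain ⟨b, hb⟩ : ∃ b : ℝ, b = 2 * ((l : ℝ) ^ d + 1) ^ q := ⟨_, rfl⟩
    have hb1 : 1 ≤ b := by
      rw [hb]
      have : (1 : ℝ) ≤ ((l : ℝ) ^ d + 1) ^ q := one_le_pow₀ (by linarith)
      linarith
    have hb0 : 0 < b := by linarith
    have hlogb : Real.log b ≤ ((1 + q) + q * d / 2) * Real.log t := by
      rw [hb, Real.log_mul (by norm_num) (by positivity), Real.log_pow]
      have h1 : Real.log ((l : ℝ) ^ d + 1) ≤ Real.log 2 + (d : ℝ) / 2 * Real.log t := by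
        rw [← Real.log_rpow ht0, ← Real.log_mul (by norm_num) (by positivity)]
        refine Real.log_le_log (by positivity) ?_
        linarith
      have h2 : Real.log 2 ≤ Real.log t := Real.log_le_log (by norm_num) ht
      have h3 : (q : ℝ) * Real.log ((l : ℝ) ^ d + 1) ≤ q * (Real.log t + (d : ℝ) / 2 * Real.log t) :=
        mul_le_mul_of_nonneg_left (by linarith) (by linarith)
      calc Real.log 2 + (q : ℝ) * Real.log ((l : ℝ) ^ d + 1)
          ≤ Real.log t + q * (Real.log t + (d : ℝ) / 2 * Real.log t) := add_le_add h2 h3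
        _ = ((1 + q) + q * d / 2) * Real.log t := by ring
    have hpow : b ^ ((L / l + 1) ^ d) = Real.exp (((L / l + 1 : ℕ) : ℝ) ^ d * Real.log b) := by
      rw [← Real.exp_log (pow_pos hb0 _), Real.log_pow]
      push_cast
      rfl
    rw [← hb, hpow]
    refine Real.exp_le_exp.2 ?_
    have hblocks : ((L / l + 1 : ℕ) : ℝ) ≤ 4 * L * u := by
      have h1 : ((L / l : ℕ) : ℝ) ≤ (L : ℝ) / l := Nat.cast_div_le
      have h2 : 1 ≤ (L : ℝ) / l := by rw [le_div_iff₀ (by linarith)]; linarith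
      have h3 : (L : ℝ) / l = L * (1 / l) := by ring
      have h4 : (L : ℝ) * (1 / l) ≤ L * (2 * u) := mul_le_mul_of_nonneg_left hlinv hLn
      push_cast
      linarith
    have hblocksd : ((L / l + 1 : ℕ) : ℝ) ^ d ≤
        4 ^ d * (L : ℝ) ^ d * (A ^ ((d : ℝ) / 2) * y ^ ((d : ℝ) / 2)) := by
      refine (pow_le_pow_left₀ (by positivity) hblocks d).trans (le_of_eq ?_)
      rw [mul_pow, mul_pow, hud]
    have hlogb0 : 0 ≤ Real.log b := Real.log_nonneg hb1
    calc ((L / l + 1 : ℕ) : ℝ) ^ d * Real.log b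
        ≤ (4 ^ d * (L : ℝ) ^ d * (A ^ ((d : ℝ) / 2) * y ^ ((d : ℝ) / 2))) *
          (((1 + q) + q * d / 2) * Real.log t) :=
          mul_le_mul hblocksd hlogb hlogb0 (by positivity)
      _ = 4 ^ d * A ^ ((d : ℝ) / 2) * ((1 + q) + q * d / 2) * (L : ℝ) ^ d * rho d t := by
          rw [hρ]; ring
      _ ≤ _ := by
          refine mul_le_mul_of_nonneg_right (mul_le_mul_of_nonneg_right ?_ hLd)
            (rho_pos d ht).le
          have : 0 ≤ 2 * A ^ ((d : ℝ) / 2) * Real.log q := by positivity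
          linarith
  · -- small times
    have h1 := Zf_triv (q := q) hPB hJ0 ht0.le
    have hcardV : Fintype.card V = L ^ d := by
      rw [Fintype.card_congr φ, Fintype.card_fun, Fintype.card_fin, Fintype.card_fin]
    rw [hcardV] at h1
    refine h1.trans ?_
    have h2 : (q : ℝ) ^ (L ^ d) = Real.exp ((L : ℝ) ^ d * Real.log q) := by
      rw [← Real.exp_log (pow_pos (by linarith : (0 : ℝ) < q) _), Real.log_pow]
      push_cast
      rfl
    rw [h2]
    refine Real.exp_le_exp.2 ?_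
    have h3 : 1 ≤ A ^ ((d : ℝ) / 2) * y ^ ((d : ℝ) / 2) := by
      rw [← hud]
      exact one_le_pow₀ h.le
    have h4 : (L : ℝ) ^ d * Real.log q ≤ 2 * A ^ ((d : ℝ) / 2) * Real.log q * (L : ℝ) ^ d * rho d t := by
      rw [hρ]
      have h5 : 1 ≤ 2 * (A ^ ((d : ℝ) / 2) * y ^ ((d : ℝ) / 2)) * Real.log t := by nlinarith
      have h6 : 0 ≤ (L : ℝ) ^ d * Real.log q := by positivity
      calc (L : ℝ) ^ d * Real.log q = (L : ℝ) ^ d * Real.log q * 1 := by ring
        _ ≤ (L : ℝ) ^ d * Real.log q *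
            (2 * (A ^ ((d : ℝ) / 2) * y ^ ((d : ℝ) / 2)) * Real.log t) :=
            mul_le_mul_of_nonneg_left h5 h6
        _ = _ := by ring
    refine h4.trans (mul_le_mul_of_nonneg_right (mul_le_mul_of_nonneg_right ?_ hLd)
      (rho_pos d ht).le)
    have : 0 ≤ 4 ^ d * A ^ ((d : ℝ) / 2) * ((1 + (q : ℝ)) + q * d / 2) := by positivity
    linarith

end Pool.Agent.Y998.CN
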